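import Pool.Agent.H7.HD.Tools2

/-!
# MP_e37c09_lc: module HL, conclusion of the far alternative
-/

open Ordinal Cardinal Order Set
open scoped ZFSet
open HD

universe u

namespace Pool.Agent.H59.HD.HL

lemma ex_reg {D μ : Cardinal.{u}} (hDs : D.IsStrongLimit) (hD0 : ℵ₀ < D) (hμ : μ < D) :
    ∃ N : Cardinal.{u}, N.IsRegular ∧ μ < N ∧ N < D := by
  refine ⟨succ (max μ ℵ₀), Cardinal.isRegular_succ (le_max_right _ _), ?_, ?_⟩
  · exact lt_of_le_of_lt (le_max_left μ ℵ₀) (lt_succ _)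
  · exact hDs.isSuccLimit.succ_lt (max_lt hμ hD0)

theorem thm (hEN : T_EN.{u}) (hHA : T_HA.{u}) (hHB : T_HB.{u}) (hHC : T_HC.{u})
    (hHD : T_HD.{u}) (hHE : T_HE.{u}) (hHF : T_HF.{u}) (hHK : T_HK.{u}) (hVC : T_VC.{u}) :
    T_HL.{u} := by
  intro D K hDr hDs hD0 hKr hDK hNS
  obtain ⟨en, hen⟩ := hEN
  have hK0 : ℵ₀ < K := hD0.trans hDK
  have hnsx : ∀ M : Cardinal.{u}, M.IsRegular → M < D → NSX D.ord M.ord K.ord :=
    fun M hM hMD => hHA _ _ _ (hNS M hM hMD)
  have hatom : ∀ M : Cardinal.{u}, M.IsRegular → M < D → ∀ X : Set Ordinal.{u}, DS X →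
      Pos M.ord K.ord X → ∃ c, E en c ⊆ X ∧ Atom en M.ord K.ord c :=
    fun M hM hMD => hHB en hen D M K hDr hDs hD0 hM hMD hKr hDK (hnsx M hM hMD)
  have hfam : ∀ M : Cardinal.{u}, M.IsRegular → M < D →
      ∃ τ < D.ord, ∃ e : Ordinal.{u} → Ordinal.{u}, (∀ i < τ, Atom en M.ord K.ord (e i)) ∧
      ¬ Pos M.ord K.ord {b | ∀ i < τ, b ∉ E en (e i)} :=
    fun M hM hMD => hHC en hen D M K hDr hD0 hM hMD hKr hDK (hnsx M hM hMD) (hatom M hM hMD)
  have key : ∀ ξ : Ordinal.{u}, ξ < D.ord → ∃ μ < D, ∀ M : Cardinal.{u}, M.IsRegular → μ ≤ M →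
      M < D → ∀ d, Atom en M.ord K.ord d → MGe K.ord ξ (uz en M.ord K.ord d) := by
    intro ξ
    induction ξ using WellFoundedLT.induction with
    | ind ξ ih =>
      intro hξ
      have ih' : ∀ t : ξ.ToType, ∃ M : Cardinal.{u}, M.IsRegular ∧ M < D ∧
          (∀ d, Atom en M.ord K.ord d →
            MGe K.ord (Ordinal.ToType.mk.symm t).1 (uz en M.ord K.ord d)) := by
        intro t
        have ht : (Ordinal.ToType.mk.symm t).1 < ξ := (Ordinal.ToType.mk.symm t).2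
        obtain ⟨μ, hμ, h⟩ := ih _ ht (ht.trans hξ)
        obtain ⟨N, hN, hμN, hND⟩ := ex_reg hDs hD0 hμ
        exact ⟨N, hN, hND, h N hN hμN.le hND⟩
      choose Mf hMr hMD hMG using ih'
      choose τ hτ e he hnull using fun t => hfam (Mf t) (hMr t) (hMD t)
      let g : ξ.ToType → Cardinal.{u} := fun t => succ (max (Mf t) (τ t).card)
      have hg : ∀ t, g t < D := fun t =>
        hDs.isSuccLimit.succ_lt (max_lt (hMD t) (Cardinal.lt_ord.1 (hτ t)))
      have hsup : iSup g < D := by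
        refine Cardinal.iSup_lt_of_isRegular hDr ?_ hg
        rw [Cardinal.mk_toType]
        exact Cardinal.lt_ord.1 hξ
      refine ⟨iSup g, hsup, ?_⟩
      intro N hNr hμN hND d hd
      rw [MGe]
      refine ⟨hHE en hen _ _ _ (hHD en _ K d hKr hK0 hd), ?_⟩
      intro ζ
      have hζ := ζ.2
      let t : ξ.ToType := Ordinal.ToType.mk ζ
      have ht : (Ordinal.ToType.mk.symm t) = ζ := by simp [t]
      have hgt : g t ≤ N := (le_ciSup (Cardinal.bddAbove_range g) t).trans hμN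
      have h1 : max (Mf t) (τ t).card < N := lt_of_lt_of_le (lt_succ _) hgt
      have hMN : Mf t < N := lt_of_le_of_lt (le_max_left _ _) h1
      have hτN : τ t < N.ord := Cardinal.lt_ord.2 (lt_of_le_of_lt (le_max_right _ _) h1)
      obtain ⟨i, hi, hpos⟩ := hHF en (Mf t) N K hen (hMr t) hNr hKr hMN (hND.trans hDK) (τ t) hτN
        (e t) (hnull t) d hd
      refine ⟨uz en (Mf t).ord K.ord (e t i), ?_, ?_⟩
      · have := hMG t (e t i) (he t i hi)
        rwa [ht] at this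
      · exact hHK en (Mf t) N K (e t i) d
          ⟨hen, hMr t, hNr, hKr, hMN, hND.trans hDK, he t i hi, hd, hpos⟩
  intro ξ hξ
  obtain ⟨μ, hμ, h⟩ := key ξ hξ
  obtain ⟨N, hN, hμN, hND⟩ := ex_reg hDs hD0 hμ
  have hpos : Pos N.ord K.ord univ := by
    refine hVC N K.ord hN ?_
    rw [hKr.cof_ord]
    exact hND.trans hDK
  have hDSuniv : DS (univ : Set Ordinal.{u}) := by
    exact (DO.cst True).congr fun w => by simp
  obtain ⟨c, -, hc⟩ := hatom N hN hND univ hDSuniv hpos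
  exact ⟨_, h N hN hμN.le hND c hc⟩

end Pool.Agent.H59.HD.HL
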