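import Pool.Agent.H7.HD.Tools2

/-!
# MP_e37c09_lc: module VH, the elements of a set of ordinals in increasing order
-/

open Ordinal Cardinal Order Set
open scoped ZFSet
open HD

universe u

namespace Pool.Agent.H59.HD.VH

/-- the set `X` made unbounded above `m` -/
def up (X : Set Ordinal.{u}) (m : Ordinal.{u}) : Set Ordinal.{u} := X ∪ {y | m < y}

lemma up_unb (X : Set Ordinal.{u}) (m : Ordinal.{u}) : ¬ BddAbove (up X m) := by
  rintro ⟨b, hb⟩
  have h1 : max b m + 1 ∈ up X m := Or.inr (by
    show m < max b m + 1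
    exact lt_of_le_of_lt (le_max_right b m) (lt_add_one _))
  have h2 : b < max b m + 1 := lt_of_le_of_lt (le_max_left b m) (lt_add_one _)
  exact absurd (hb h1) (not_le.2 h2)

lemma mem_of_up {X : Set Ordinal.{u}} {m y : Ordinal.{u}} (h : y ∈ up X m) (hy : y ≤ m) : y ∈ X :=
  h.resolve_right (not_lt.2 hy)

/-- the index of an element -/
lemma nth_enum {X : Set Ordinal.{u}} {a z m : Ordinal.{u}} (h : nth X a z) (hz : z ≤ m) :
    enumOrd (up X m) a = z := by
  obtain ⟨hzX, g, hg, hgX, hsur⟩ := h
  have hu := up_unb X m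
  have hk : ∀ x, x < a → enumOrd (up X m) x = g x := by
    intro x
    induction x using WellFoundedLT.induction with
    | ind x ih =>
      intro hx
      have h1 : enumOrd (up X m) x ≤ g x := by
        refine enumOrd_le_of_forall_lt (Or.inl (hgX x hx).1) fun b hb => ?_
        rw [ih b hb (hb.trans hx)]
        exact hg b x hb hx
      rcases h1.lt_or_eq with h2 | h2
      · exfalso
        have h3 : enumOrd (up X m) x < z := h2.trans (hgX x hx).2
        have h4 : enumOrd (up X m) x ∈ X := mem_of_up (enumOrd_mem hu x) (h3.le.trans hz)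
        obtain ⟨x', hx', he⟩ := hsur _ h4 h3
        have h5 : x' < x := by
          by_contra hc
          rcases (not_lt.1 hc).lt_or_eq with h6 | h6
          · exact absurd (he ▸ hg x x' h6 hx') (not_lt.2 h1)
          · subst h6
            exact absurd he.symm h2.ne
        have h6 := ih x' h5 hx'
        have h7 : enumOrd (up X m) x' < enumOrd (up X m) x := enumOrd_strictMono hu h5
        rw [h6, he] at h7
        exact lt_irrefl _ h7
      · exact h2
  have h1 : enumOrd (up X m) a ≤ z :=
    enumOrd_le_of_forall_lt (Or.inl hzX) fun b hb => by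
      rw [hk b hb]
      exact (hgX b hb).2
  rcases h1.lt_or_eq with h2 | h2
  · exfalso
    have h4 : enumOrd (up X m) a ∈ X := mem_of_up (enumOrd_mem hu a) (h2.le.trans hz)
    obtain ⟨x', hx', he⟩ := hsur _ h4 h2
    have h7 : enumOrd (up X m) x' < enumOrd (up X m) a := enumOrd_strictMono hu hx'
    rw [hk x' hx', he] at h7
    exact lt_irrefl _ h7
  · exact h2

lemma ex_nth {X : Set Ordinal.{u}} {z : Ordinal.{u}} (hz : z ∈ X) : ∃ a ≤ z, nth X a z := by
  have hu := up_unb X z
  obtain ⟨a, ha⟩ := enumOrd_surjective hu (b := z) (Or.inl hz)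
  refine ⟨a, ?_, hz, enumOrd (up X z), fun x y hxy _ => enumOrd_strictMono hu hxy, ?_, ?_⟩
  · have := le_enumOrd_self hu (a := a)
    rwa [ha] at this
  · intro x hx
    have h1 : enumOrd (up X z) x < z := by
      have := enumOrd_strictMono hu hx
      rwa [ha] at this
    exact ⟨mem_of_up (enumOrd_mem hu x) h1.le, h1⟩
  · intro y hy hyz
    obtain ⟨x, hx⟩ := enumOrd_surjective hu (b := y) (Or.inl hy)
    refine ⟨x, ?_, hx⟩
    rw [← enumOrd_lt_enumOrd hu, hx, ha]
    exact hyz

lemma nth_lt {X : Set Ordinal.{u}} {a b z y : Ordinal.{u}} (h1 : nth X a z) (h2 : nth X b y) :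
    a < b ↔ z < y := by
  have e1 := nth_enum h1 (le_max_left z y)
  have e2 := nth_enum h2 (le_max_right z y)
  rw [← enumOrd_lt_enumOrd (up_unb X (max z y)), e1, e2]

lemma nth_down {X : Set Ordinal.{u}} {a z : Ordinal.{u}} (h : nth X a z) {b : Ordinal.{u}}
    (hb : b < a) : ∃ y < z, nth X b y := by
  obtain ⟨_, g, hg, hgX, hsur⟩ := h
  refine ⟨g b, (hgX b hb).2, (hgX b hb).1, g, fun x y hxy hy => hg x y hxy (hy.trans hb),
    fun x hx => ⟨(hgX x (hx.trans hb)).1, hg x b hx hb⟩, ?_⟩
  intro y hy hyb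
  obtain ⟨x, hx, he⟩ := hsur y hy (hyb.trans (hgX b hb).2)
  refine ⟨x, ?_, he⟩
  by_contra hc
  rcases (not_lt.1 hc).lt_or_eq with h6 | h6
  · exact absurd (he ▸ hg b x h6 hx) (not_lt.2 hyb.le)
  · subst h6
    exact absurd he.symm hyb.ne

theorem thm : T_VH.{u} := by
  intro X
  refine ⟨fun z hz => ex_nth hz, fun a b z y => nth_lt, fun a z h b hb => nth_down h hb, ?_⟩
  intro δ
  by_contra hc
  push Not at hc
  obtain ⟨hF, a, ha, hno⟩ := hc
  apply hF
  classical
  refine ⟨a, ha, fun i => if h : ∃ z, nth X i z then Classical.choose h else 0, fun z hz => ?_⟩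
  obtain ⟨i, -, hi⟩ := ex_nth hz
  refine ⟨i, ?_, ?_⟩
  · by_contra hia
    rcases (not_lt.1 hia).lt_or_eq with h | h
    · obtain ⟨y, -, hy⟩ := nth_down hi h
      exact hno y hy
    · subst h
      exact hno z hi
  · have hex : ∃ z, nth X i z := ⟨z, hi⟩
    simp only [hex, dif_pos]
    have hch := Classical.choose_spec hex
    have h1 := nth_lt hch hi
    have h2 := nth_lt hi hch
    rcases lt_trichotomy (Classical.choose hex) z with h | h | h
    · exact absurd (h1.2 h) (lt_irrefl i)
    · exact h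
    · exact absurd (h2.2 h) (lt_irrefl i)

end Pool.Agent.H59.HD.VH
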