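import Pool.Agent.H7.HD.Targets7

/-!
# MP_e37c09_lc, module ZX: the definable family `Z`
-/

set_option autoImplicit false

open Ordinal Cardinal Order Set
open scoped ZFSet

universe u

namespace Pool.Agent.H59.HD.ZX

open _root_.HD

theorem exists_sj {K : Cardinal.{u}} {lam : Ordinal.{u}} (hc : lam.card = K) (h0 : 0 < lam) :
    ∃ f, Sj K lam f := by
  classical
  have h1 : #(Iio lam) ≤ Cardinal.lift.{u + 1} (K.ord).card := by
    rw [Cardinal.mk_Iio_ordinal, hc, Cardinal.card_ord]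
  obtain ⟨e, he⟩ := cov_iff.2 h1
  refine ⟨fun x => if e x < lam then e x else 0, ?_, ?_⟩
  · intro x _
    by_cases h : e x < lam
    · simp only [h, if_true]
    · simp only [h, if_false]; exact h0
  · intro z hz
    obtain ⟨a, ha, h⟩ := he z hz
    refine ⟨a, ha, ?_⟩
    have h2 : e a < lam := by rw [h]; exact hz
    simp only [h2, if_true]
    exact h

theorem clb_univ {K : Cardinal.{u}} (hK0 : ℵ₀ < K) : Clb K.ord (univ : Set Ordinal.{u}) := by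
  refine ⟨fun a ha => ⟨a + 1, ?_, _root_.lt_add_one a, mem_univ _⟩, fun x _ _ _ => mem_univ _⟩
  exact (Cardinal.isSuccLimit_ord hK0.le).add_one_lt ha

theorem zx (hTY : T_TY.{u}) (hUN : T_UN.{u}) (hDP : T_DP.{u}) (hPS : T_PS.{u}) (hTR : T_TR.{u})
    (hNF : T_NF.{u}) (hDV : T_DV.{u}) : T_ZX.{u} := by
  classical
  intro en N M K lam c d x h
  have hK0 : ℵ₀ < K := (h.nreg.aleph0_le.trans_lt h.nm).trans h.mK
  have hlc : lam.cof = K := h.rc lam h.kl.le le_rfl h.reg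
  have hKc : ℵ₀ < K.ord.cof := by
    rw [h.kreg.cof_ord]
    exact hK0
  have hlK : lam.card = K :=
    le_antisymm (Order.lt_succ_iff.1 (Cardinal.lt_ord.1 h.lk)) (Cardinal.ord_le.1 h.kl.le)
  obtain ⟨f, hf⟩ := exists_sj hlK ((zero_le (a := K.ord)).trans_lt h.kl)
  obtain ⟨n, hn⟩ := hNF K lam h.kreg hK0 hlc
  obtain ⟨p, s, r, hps⟩ := hPS
  obtain ⟨tr1, tr2⟩ := hTR K M lam n h.kreg hK0 h.mreg hn
  have hty := hTY en N M K lam c d x h f n p s r hf hn hps.pi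
  set v := vx en N d x with hv
  -- the key fact
  have key : ∀ γ < K.ord, Cf M.ord γ → n γ ∈ E en c →
      γ ∉ {γ | n γ ∈ E en c ∧ ¬ (Ph K.ord N p s r v (n γ) (f '' Iio γ) ∧
        ∀ a ∈ f '' Iio γ, K.ord ≤ a → RegHOD a → N < (v a (n γ)).cof)} →
      Zp K.ord N p s r v (n γ) = f '' Iio γ ∧ ∀ y < n γ, ∃ z ∈ f '' Iio γ, y < z := by
    intro γ hγ hcf hE hgood
    have hgood' : Ph K.ord N p s r v (n γ) (f '' Iio γ) ∧
        ∀ a ∈ f '' Iio γ, K.ord ≤ a → RegHOD a → N < (v a (n γ)).cof := by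
      by_contra hcon
      exact hgood ⟨hE, hcon⟩
    obtain ⟨hph, hcofs⟩ := hgood'
    have h1 : γ.cof = M := Cardinal.ord_injective hcf
    have hlim : IsSuccLimit γ := by
      rw [← Ordinal.one_lt_cof_iff, h1]
      exact Cardinal.one_lt_aleph0.trans_le h.mreg.aleph0_le
    have h2 : N < (n γ).cof := by
      rw [tr2 γ hγ hlim, h1]
      exact h.nm
    refine ⟨?_, hph.cf⟩
    ext z
    constructor
    · rintro ⟨-, hz⟩
      exact hz _ hph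
    · intro hz
      refine ⟨hph.lt z hz, fun X' hX' => ?_⟩
      have h3 := hUN K.ord N p s r v (n γ) (f '' Iio γ) X' hps.pi h.nreg h2 hph hX' hcofs
      rw [← h3]
      exact hz
  -- a positive set has a good point
  have pt : ∀ S : Set Ordinal.{u}, Pos M.ord lam S → (∀ β ∈ S, β ∈ E en c) →
      Pos M.ord K.ord {γ | n γ ∈ S ∧ γ < K.ord ∧ Cf M.ord γ ∧
        Zp K.ord N p s r v (n γ) = f '' Iio γ ∧ ∀ y < n γ, ∃ z ∈ f '' Iio γ, y < z} := by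
    intro S hS hSE
    have h1 := pos_diff All.va hKc ((tr1 S).1 hS) hty
    refine h1.mono fun γ hγ hγ2 hcf => ?_
    exact ⟨hγ2.1, hγ, hcf, key γ hγ hcf (hSE _ hγ2.1) hγ2.2⟩
  refine ⟨fun b z => z ∈ Zp K.ord N p s r v b, ?_, ?_, ?_, ?_⟩
  · exact hDP K.ord N p s r v hps (hDV en N d x h.hen h.fam.dr).2
  · intro hpos
    obtain ⟨γ, -, -, ⟨hγ1, hγ2, -, hγ4, -⟩, -⟩ := pt _ hpos (fun β hβ => hβ.1) _ (clb_univ hK0)
    refine hγ1.2 ?_
    show Few K.ord (Zp K.ord N p s r v (n γ))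
    rw [hγ4]
    exact ⟨γ, hγ2, f, fun x hx => hx⟩
  · intro hpos
    obtain ⟨γ, -, -, ⟨hγ1, -, -, hγ4, hγ5⟩, -⟩ := pt _ hpos (fun β hβ => hβ.1) _ (clb_univ hK0)
    obtain ⟨y, hy, hy2⟩ := hγ1.2
    obtain ⟨z, hz, hyz⟩ := hγ5 y hy
    have h3 : z ∈ Zp K.ord N p s r v (n γ) := by
      rw [hγ4]
      exact hz
    exact absurd (hy2 z h3) (not_le.2 hyz)
  · intro g S hS hSE hSZ
    have hpos := pt S hS hSE
    set T := {γ | n γ ∈ S ∧ γ < K.ord ∧ Cf M.ord γ ∧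
        Zp K.ord N p s r v (n γ) = f '' Iio γ ∧ ∀ y < n γ, ∃ z ∈ f '' Iio γ, y < z} with hT
    have hex : ∀ γ ∈ T, ∃ i < γ, f i = g (n γ) := by
      rintro γ ⟨hγ1, hγ2, -, hγ4, -⟩
      have h3 : g (n γ) ∈ Zp K.ord N p s r v (n γ) := hSZ (n γ) hγ1 (hn.lt γ hγ2)
      rw [hγ4] at h3
      obtain ⟨i, hi, h4⟩ := h3
      exact ⟨i, hi, h4⟩
    choose! k hk1 hk2 using hex
    obtain ⟨a, ha, hpa⟩ := All.vd M.ord K h.kreg hK0 T k hpos (fun b hb _ _ => hk1 b hb)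
    refine ⟨f a, hf.lt a ha, ?_⟩
    rw [tr1]
    refine hpa.mono fun γ _ hγ2 _ => ?_
    refine ⟨hγ2.1.1, ?_⟩
    rw [← hk2 γ hγ2.1, hγ2.2]

end Pool.Agent.H59.HD.ZX
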