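import Pool.Agent.H7.HD.Targets11
import Pool.Agent.H33.HD.VD

/-!
# Module CS2 (MP_e37c09_lc): cofinalities of the points of a stationary set
-/

open Ordinal Cardinal Order Set
open scoped ZFSet

universe u

namespace Pool.Agent.H59.HD.CS2

open _root_.HD

theorem clb_inter_gt {K : Cardinal.{u}} {C : Set Ordinal.{u}} (hC : Clb K.ord C)
    {d : Ordinal.{u}} (hd : d < K.ord) : Clb K.ord {x | x ∈ C ∧ d < x} := by
  refine ⟨fun a ha => ?_, fun x hx hx0 h => ⟨hC.cls x hx hx0 fun y hy => ?_, ?_⟩⟩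
  · obtain ⟨b, hb, hab, hbC⟩ := hC.unb (max a d) (max_lt ha hd)
    exact ⟨b, hb, (le_max_left a d).trans_lt hab, hbC, (le_max_right a d).trans_lt hab⟩
  · obtain ⟨z, hz, hyz, hz2⟩ := h y hy
    exact ⟨z, hz, hyz, hz2.1⟩
  · obtain ⟨z, hz, -, hz2⟩ := h 0 hx0
    exact lt_trans hz2.2 hz

theorem clb_lim {K : Cardinal.{u}} (hK : K.IsRegular) (h0 : ℵ₀ < K) :
    Clb K.ord {x | IsSuccLimit x} := by
  have hω : ω < K.ord := by
    rw [← ord_aleph0]
    exact ord_lt_ord.2 h0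
  refine ⟨fun a ha => ⟨a + ω, ?_, ?_, isSuccLimit_add a isSuccLimit_omega0⟩, fun x _ hx0 h => ?_⟩
  · exact (isPrincipal_add_ord hK.aleph0_le) ha hω
  · exact lt_add_of_pos_right a omega0_pos
  · change IsSuccLimit x
    rw [Ordinal.isSuccLimit_iff, isSuccPrelimit_iff_succ_lt]
    refine ⟨hx0.ne', fun y hy => ?_⟩
    obtain ⟨z, hz, hyz, -⟩ := h y hy
    exact (Order.succ_le_of_lt hyz).trans_lt hz

end Pool.Agent.H59.HD.CS2

namespace Pool.Agent.H59.HD

open _root_.HD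

open CS2 in
theorem pf_CS2 : T_CS2.{u} := by
  intro D K X hD hK hDK hX
  by_contra hcon
  push Not at hcon
  obtain ⟨h1, C, hC, hCX⟩ := hcon
  have h0 : ℵ₀ < K := hD.trans hDK
  have hDo : D.ord < K.ord := ord_lt_ord.2 hDK
  have hωD : ω < D.ord := by
    rw [← ord_aleph0]
    exact ord_lt_ord.2 hD
  have h2 : ∀ M : Cardinal.{u}, ∃ E : Set Ordinal.{u}, M.IsRegular → M < D →
      Clb K.ord E ∧ ∀ b < K.ord, b ∈ E → b ∈ X → ¬ Cf M.ord b := by
    intro M
    by_cases hM : M.IsRegular ∧ M < D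
    · have h3 := h1 M hM.1 hM.2
      unfold Pos at h3
      push Not at h3
      obtain ⟨E, hE, hE2⟩ := h3
      exact ⟨E, fun _ _ => ⟨hE, hE2⟩⟩
    · exact ⟨univ, fun a b => absurd ⟨a, b⟩ hM⟩
  choose E hE using h2
  classical
  let F : Ordinal.{u} → Set Ordinal.{u} := fun μ =>
    if μ = 0 then {x | x ∈ C ∧ D.ord < x} else if μ = 1 then {x | IsSuccLimit x}
      else if μ.card.IsRegular ∧ μ.card < D then E μ.card else C
  have hF : ∀ a < K.ord, Clb K.ord (F a) := by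
    intro a _
    simp only [F]
    split_ifs with k0 k1 k3
    · exact clb_inter_gt hC hDo
    · exact clb_lim hK h0
    · exact (hE _ k3.1 k3.2).1
    · exact hC
  obtain ⟨a, haK, ⟨ha0, ha⟩, haX⟩ := hX _ (Pool.Agent.H33.HD.VD.diag hK h0 F hF)
  have a0 : a ∈ C ∧ D.ord < a := by
    have h := ha 0 ha0
    simp only [F, if_true] at h
    exact h
  have hωa : ω < a := hωD.trans a0.2
  have a1 : IsSuccLimit a := by
    have h := ha 1 (lt_trans one_lt_omega0 hωa)
    simp only [F, one_ne_zero, if_false, if_true] at h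
    exact h
  have hcof : a.cof < D := hCX a haK a0.1 haX
  have hreg : a.cof.IsRegular := isRegular_cof a1
  have hωc : ω ≤ a.cof.ord := by
    rw [← ord_aleph0]
    exact ord_le_ord.2 hreg.aleph0_le
  have hca : a.cof.ord < a := (ord_lt_ord.2 hcof).trans a0.2
  have h := ha _ hca
  have n0 : a.cof.ord ≠ 0 := (omega0_pos.trans_le hωc).ne'
  have n1 : a.cof.ord ≠ 1 := (one_lt_omega0.trans_le hωc).ne'
  simp only [F, if_neg n0, if_neg n1, card_ord] at h
  rw [if_pos ⟨hreg, hcof⟩] at h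
  exact (hE _ hreg hcof).2 a haK h haX rfl

end Pool.Agent.H59.HD
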