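import Pool.Agent.H7.HD.Targets8

/-!
# Module SV: splitting above a strongly compact cardinal
(MP_dbe07f_lc and MP_ecfd11_lc)
-/

set_option autoImplicit false

open Ordinal Cardinal Order Set
open scoped ZFSet

universe u

namespace Pool.Agent.H59.HD.SV

open _root_.HD

theorem clb_univ {K : Cardinal.{u}} (hK0 : ℵ₀ < K) : Clb K.ord (univ : Set Ordinal.{u}) := by
  refine ⟨fun a ha => ⟨a + 1, ?_, _root_.lt_add_one a, mem_univ _⟩, fun x _ _ _ => mem_univ _⟩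
  exact (Cardinal.isSuccLimit_ord hK0.le).add_one_lt ha

/-- `z < κ`, and the `z`-th set is positive at `ν` -/
def Ap (μ κ : Ordinal.{u}) (s : Ordinal.{u} → Ordinal.{u} → Prop) (z ν : Ordinal.{u}) : Prop :=
  z < κ ∧ Pos μ ν {b | s b z}

theorem ap_do {s : Ordinal.{u} → Ordinal.{u} → Prop} (hs : DR s) (μ κ : Ordinal.{u}) :
    DO fun w => Ap μ κ s (w 0) (w 1) := by
  refine DO.and (DO.ltc 0 κ) ?_
  refine DO.sub μ (R := fun m w => Pos m (w 1) {b | s b (w 0)}) ?_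
  exact All.da 0 2 (fun b w => s b (w 1)) (DO.s2 (X := fun a b => s a b) hs 0 2)

/-- `ν` is a limit ordinal of cofinality less than `δ`, and the set of the indices `z` is cofinal
in `b` -/
def Good (δ μ κ : Ordinal.{u}) (s : Ordinal.{u} → Ordinal.{u} → Prop) (b ν : Ordinal.{u}) : Prop :=
  ((0 < ν ∧ ∀ y < ν, ∃ z < ν, y < z) ∧ ∃ m < δ, Cf m ν) ∧
    ∀ y < b, ∃ z < b, y < z ∧ Ap μ κ s z ν

theorem good_do {s : Ordinal.{u} → Ordinal.{u} → Prop} (hs : DR s) (δ μ κ : Ordinal.{u}) :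
    DR (Good δ μ κ s) := by
  refine DO.and (DO.and (DO.and (DO.gtc 1 0) ?_) ?_) ?_
  · refine DO.allLt (R := fun y w => ∃ z < w 1, y < z) 1 ?_
    exact DO.exLt (R := fun z w => w 0 < z) 2 (DO.lt 1 0)
  · exact DO.exLtc (R := fun m w => Cf m (w 1)) δ (do_Cf All.la 0 2)
  · refine DO.allLt (R := fun y w => ∃ z < w 0, y < z ∧ Ap μ κ s z (w 1)) 0 ?_
    refine DO.exLt (R := fun z w => w 0 < z ∧ Ap μ κ s z (w 2)) 1 ?_
    exact DO.and (DO.lt 1 0) ((ap_do hs μ κ).s2 0 3)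

/-- the `i`-th index below `b` for the least good `ν` -/
def Tr (δ μ κ : Ordinal.{u}) (s : Ordinal.{u} → Ordinal.{u} → Prop) (i b a : Ordinal.{u}) : Prop :=
  ∃ ν, Pool.Agent.H17.HD.XK.Lst (Good δ μ κ s) b ν ∧ nth {z | z < b ∧ Ap μ κ s z ν} i a

theorem tr_do {s : Ordinal.{u} → Ordinal.{u} → Prop} (hs : DR s) (δ μ κ i : Ordinal.{u}) :
    DR (Tr δ μ κ s i) := by
  refine DO.ex (R := fun ν w => Pool.Agent.H17.HD.XK.Lst (Good δ μ κ s) (w 0) ν ∧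
    nth {z | z < w 0 ∧ Ap μ κ s z ν} i (w 1)) ?_
  refine DO.and ((Pool.Agent.H17.HD.XK.Lst.do (good_do hs δ μ κ)).s2 1 0) ?_
  refine DO.sub i (R := fun i w => nth {z | z < w 1 ∧ Ap μ κ s z (w 0)} i (w 2)) ?_
  have h := All.db (fun z w => z < w 0 ∧ Ap μ κ s z (w 1))
    (DO.and (DO.lt 0 1) ((ap_do hs μ κ).s2 0 2))
  exact DO.s4 (X := fun p q r t => nth {z | z < r ∧ Ap μ κ s z t} p q) h 0 3 2 1

theorem tr_uniq {s : Ordinal.{u} → Ordinal.{u} → Prop} {δ μ κ i b a a' : Ordinal.{u}}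
    (h : Tr δ μ κ s i b a) (h' : Tr δ μ κ s i b a') : a = a' := by
  obtain ⟨ν, h1, h2⟩ := h
  obtain ⟨ν', h1', h2'⟩ := h'
  have e := h1.uniq h1'
  subst e
  exact Pool.Agent.H17.HD.XK.nth_uniq All.vh h2 h2'

theorem sv (hSW : T_SW.{u}) (hSR : T_SR.{u}) (hNA : T_NA.{u}) (hUB : T_UB.{u}) : T_SV.{u} := by
  classical
  intro D K M κ hD hK hDK hM hMD hκ hNS τ hτ0 hτK
  have hD0 : ℵ₀ < D := hD.2.1
  have hK0 : ℵ₀ < K := hD0.trans hDK
  have hKc : K.ord.cof = K := hK.cof_ord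
  have hKc0 : ℵ₀ < K.ord.cof := by rw [hKc]; exact hK0
  unfold NS at hNS
  push Not at hNS
  obtain ⟨s, hs, huniq, hpos⟩ := hNS
  obtain ⟨W, hW⟩ := hSW D hD κ hκ
  have hAW : ∀ i < K.ord, {ν | Ap M.ord K.ord s i ν} ∈ W := by
    intro i hi
    refine Filter.mem_of_superset
      (hSR D M κ W hD.1 hD0 hκ hW hM hMD {b | s b i} (hpos i hi)) fun ν hν => ⟨hi, hν⟩
  -- there is a good `ν`
  have hgood : ∀ b < K.ord, b.cof = ℵ₀ → ∃ ν, Good D.ord M.ord K.ord s b ν := by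
    intro b hb hbc
    have hlim : IsSuccLimit b := by
      rw [← Ordinal.one_lt_cof_iff, hbc]
      exact Cardinal.one_lt_aleph0
    obtain ⟨g, hg1, -, hg3⟩ := Pool.Agent.H2.HD.UV.exists_seq hlim
    have h1 := hW.cmp b.cof.ord (by rw [hbc]; exact Cardinal.ord_lt_ord.2 hD0)
      (fun i => {ν | Ap M.ord K.ord s (g i) ν}) (fun i hi => hAW (g i) ((hg1 i hi).trans hb))
    obtain ⟨ν, ⟨hν1, hν2⟩, hν3⟩ :=
      W.nonempty_of_mem (Filter.inter_mem (Filter.inter_mem h1 hW.lim) hW.cf)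
    have hν2' : IsSuccLimit ν := hν2
    refine ⟨ν, ⟨⟨?_, ?_⟩, ν.cof.ord, Cardinal.ord_lt_ord.2 hν3, rfl⟩, ?_⟩
    · exact hν2'.bot_lt
    · intro y hy
      exact ⟨y + 1, hν2'.add_one_lt hy, _root_.lt_add_one y⟩
    · intro y hy
      obtain ⟨i, hi, hyi⟩ := hg3 y hy
      exact ⟨g i, hg1 i hi, hyi, hν1 i hi⟩
  -- the set of the indices is small
  have hfew : ∀ b ν, Good D.ord M.ord K.ord s b ν →
      Few D.ord {z | z < b ∧ Ap M.ord K.ord s z ν} := by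
    intro b ν h
    obtain ⟨⟨⟨h0, h1⟩, m, hm, hc⟩, -⟩ := h
    have hlim : IsSuccLimit ν := by
      refine ⟨fun hmin => ?_, ?_⟩
      · have := hmin.eq_bot
        rw [this] at h0
        exact absurd h0 (lt_irrefl _)
      · intro y hy
        obtain ⟨z, hz, hyz⟩ := h1 y hy.1
        exact hy.2 hyz hz
    have hcf : ν.cof < D := by
      have : ν.cof.ord = m := hc
      rw [← Cardinal.ord_lt_ord, this]
      exact hm
    obtain ⟨t, ht, e, he⟩ := hNA D M ν s hlim hcf huniq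
    exact ⟨t, ht, e, fun x hx => he x hx.2.2⟩
  -- a positive set for some index
  have hcl : ∀ l < K.ord, ∃ i < D.ord, Pos (ℵ₀ : Cardinal.{u}).ord K.ord
      {b | ∃ a, l ≤ a ∧ a < b ∧ Tr D.ord M.ord K.ord s i b a} := by
    intro l hl
    by_contra hcon
    push Not at hcon
    have hn := All.va (ℵ₀ : Cardinal.{u}).ord K.ord hKc0 D.ord
      (by rw [Cardinal.card_ord, hKc]; exact hDK)
      (fun i => {b | ∃ a, l ≤ a ∧ a < b ∧ Tr D.ord M.ord K.ord s i b a}) hcon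
    have hl1 : l + 1 < K.ord := (Cardinal.isSuccLimit_ord hK0.le).add_one_lt hl
    have h1 : Pos (ℵ₀ : Cardinal.{u}).ord K.ord (univ \ Iio (l + 1)) :=
      pos_diff All.va hKc0 (All.vc ℵ₀ K.ord Cardinal.isRegular_aleph0 hKc0)
        (All.vb _ K.ord (l + 1) (Cardinal.isSuccLimit_ord hK0.le) hl1)
    refine hn (h1.mono fun b hb hb1 hbc => ?_)
    have hlb : l < b := by
      have h2 : ¬ b < l + 1 := hb1.2
      exact (_root_.lt_add_one l).trans_le (not_lt.1 h2)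
    have hbc' : b.cof = ℵ₀ := Cardinal.ord_injective hbc
    obtain ⟨ν, hν⟩ := Pool.Agent.H17.HD.XK.Lst.exist (hgood b hb hbc')
    obtain ⟨z, hz, hlz, hA⟩ := hν.1.2 l hlb
    obtain ⟨i, -, hi⟩ := (All.vh {z | z < b ∧ Ap M.ord K.ord s z ν}).1 z ⟨hz, hA⟩
    obtain ⟨t, ht, -, hti⟩ := Pool.Agent.H17.HD.XK.idx All.vh (hfew b ν hν.1)
    exact ⟨i, (hti i z hi).trans ht, z, hlz.le, hz, ν, hν, hi⟩
  choose! f hf1 hf2 using hcl
  -- one index
  have hone : ∃ i < D.ord, ∀ l < K.ord, ∃ l', l ≤ l' ∧ l' < K.ord ∧ f l' = i := by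
    by_contra hcon
    push Not at hcon
    choose! g hg1 hg2 using hcon
    obtain ⟨t, ht, hgt⟩ := Pool.Agent.H3.HD.exists_bound (ρ := K.ord) (τ := D.ord)
      (by rw [Cardinal.card_ord, hKc]; exact hDK) g hg1
    exact hg2 (f t) (hf1 t ht) t (hgt _ (hf1 t ht)) ht rfl
  obtain ⟨i, hi, hi2⟩ := hone
  refine hUB K (Tr D.ord M.ord K.ord s i) hK hK0 (tr_do hs _ _ _ _)
    (fun b a a' h h' => tr_uniq h h') ?_ τ hτ0 hτK
  intro l hl
  have hX : Pos (ℵ₀ : Cardinal.{u}).ord K.ord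
      {b | ∃ a, l ≤ a ∧ a < b ∧ Tr D.ord M.ord K.ord s i b a} := by
    obtain ⟨l', hl', hl'K, rfl⟩ := hi2 l hl
    refine (hf2 l' hl'K).mono fun b _ hb _ => ?_
    obtain ⟨a, ha, h⟩ := hb
    exact ⟨a, hl'.trans ha, h⟩
  have hex : ∀ b ∈ {b | ∃ a, l ≤ a ∧ a < b ∧ Tr D.ord M.ord K.ord s i b a},
      ∃ a, l ≤ a ∧ a < b ∧ Tr D.ord M.ord K.ord s i b a := fun b hb => hb
  choose! h hh1 hh2 hh3 using hex
  obtain ⟨a, ha, hpa⟩ := All.vd _ K hK hK0 _ h hX (fun b hb _ _ => hh2 b hb)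
  refine ⟨a, ?_, ha, hpa.mono fun b _ hb _ => ?_⟩
  · obtain ⟨b, -, -, hb, -⟩ := hpa _ (clb_univ hK0)
    rw [← hb.2]
    exact hh1 b hb.1
  · show Tr D.ord M.ord K.ord s i b a
    rw [← hb.2]
    exact hh3 b hb.1

end Pool.Agent.H59.HD.SV
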